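import Pool.Agent.U553.DW.E

/-!
# The heights of the relations between odd double zeta values

Let `k ≥ 4` be a weight. We consider integer relations `∑ c_p ζ(p, k - p) + d ζ(k) = 0` with odd `p`, `3 ≤ p < k`. For even
`k` and `d = 0` these are the elements of `R_k`, up to a factor. The starting results of this page treat a bounded number of
terms, or `k ^ t` terms with `t < 1 / 3`. Here the number of terms is proportional to `k`, and the coefficients are bounded.

(1) In each relation which is not trivial there is a coefficient `|c_p| ≥ 4`. This is sharp: by the sum formula of Gangl, Kaneko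
and Zagier one has `∑ 4 ζ(p, k - p) - ζ(k) = 0` for even `k`. The proof: `ζ(p, r + 2) > 4 ζ(p + 2, r)`.

(2) For every `M ≥ 2` the windows `P_0 ≤ p ≤ P_1` with `P_1 / P_0 < log (M + 1) / log M` and
`P_1 log M < k log 2 + P_0 log (3 / 2)` (for `P_0` larger than a constant) contain no relation with `|c_p| < (M!)²`. More precisely,
`|∑ c_p ζ(p, k - p) + d ζ(k)| ≥ 1 / (2 M ^ P_1)`. An explicit form is given.

(3) For example, all relations with `|c_p| ≤ 35` in the windows `P_0 ≤ p ≤ P_1 ≤ 5 P_0 / 4`, `P_1 ≤ 8 k / 9`, `P_0 ≥ N`, are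
trivial; this is 17 percent of all odd double zeta values of weight `k` in one window.

(4) For every `H` there is a window `a k ≤ p ≤ b k` which contains a positive proportion of all odd double zeta values of weight
`k`, and no relation with `|c_p| ≤ H`, for all large `k`.

Proof of (2): Let `F(x) = ∑ c_p x ^ p`. The terms of `ζ(p, k - p)` with second variable `1` have the sum
`∑_{m ≥ 2} F(1 / m)`. If `F(1 / m) = 0` then `m ^ 2 x ^ 2 - 1` divides `F(x)`, so if this is true for all `m ≤ M` then the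
leading coefficient of `F` is divisible by `(M!)²`. Hence `F(1 / m) ≠ 0` for some `m ≤ M`, and for the first such `m` the number
`|F(1 / m)| ≥ m ^ (-P_1)` dominates all the other terms.
-/

set_option autoImplicit false

namespace Pool.Agent.Results.MP_9206b6_nt.HeightsOfRelations

open Finset

/-- the double zeta value `ζ(p, q)`, the sum of `m ^ (-p) n ^ (-q)` over `m > n ≥ 1` -/
noncomputable def doubleZeta (p q : ℕ) : ℝ :=
  ∑' m : ℕ, (∑ n ∈ Finset.Ico 1 (m + 1), 1 / (n : ℝ) ^ q) / ((m + 1 : ℕ) : ℝ) ^ p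

/-- `ζ(k)` -/
noncomputable def zeta (k : ℕ) : ℝ := ∑' m : ℕ, 1 / ((m + 1 : ℕ) : ℝ) ^ k

/-- the odd numbers `p` with `P ≤ p ≤ Q` -/
def odds (P Q : ℕ) : Finset ℕ := (Icc P Q).filter fun p => p % 2 = 1

/-- `|∑ c_p ζ(p, k - p) + d ζ(k)| ≥ η` for all integers `c_p` (`p` odd, `P ≤ p ≤ Q`) and `d`, not all zero, with
`|c_p| ≤ H` -/
def AtLeast (k P Q H : ℕ) (η : ℝ) : Prop :=
  ∀ (c : ℕ → ℤ) (d : ℤ), (∀ p ∈ odds P Q, |c p| ≤ H) → (d ≠ 0 ∨ ∃ p ∈ odds P Q, c p ≠ 0) →
    η ≤ |∑ p ∈ odds P Q, (c p : ℝ) * doubleZeta p (k - p) + d * zeta k|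

/-- `∑ c_p ζ(p, k - p) + d ζ(k) ≠ 0` for all integers `c_p` (`p` odd, `P ≤ p ≤ Q`) and `d`, not all zero, with
`|c_p| ≤ H` -/
def NoRelation (k P Q H : ℕ) : Prop :=
  ∀ (c : ℕ → ℤ) (d : ℤ), (∀ p ∈ odds P Q, |c p| ≤ H) → (d ≠ 0 ∨ ∃ p ∈ odds P Q, c p ≠ 0) →
    ∑ p ∈ odds P Q, (c p : ℝ) * doubleZeta p (k - p) + d * zeta k ≠ 0

lemma noRelation {k P Q H : ℕ} {η : ℝ} (hη : 0 < η) (h : AtLeast k P Q H η) : NoRelation k P Q H := by
  intro c d hc hd h0
  have h1 := h c d hc hd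
  rw [h0, abs_zero] at h1
  linarith

lemma lt_of_le {M : ℕ} {z : ℤ} (h : |z| ≤ ((M.factorial ^ 2 - 1 : ℕ) : ℤ)) : |z| < (M.factorial : ℤ) ^ 2 := by
  have hfac : 0 < M.factorial ^ 2 := by positivity
  have h5 : ((M.factorial ^ 2 - 1 : ℕ) : ℤ) = (M.factorial : ℤ) ^ 2 - 1 := by
    rw [Nat.cast_sub (by omega)]
    push_cast
    ring
  omega

theorem part2 (M : ℕ) (hM : 2 ≤ M) (ε : ℝ) (hε : 0 < ε) : ∃ N : ℕ, ∀ P Q k : ℕ, N ≤ P → P ≤ Q → Q < k →
      (Q : ℝ) * (Real.log M + ε) ≤ P * Real.log (M + 1) →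
      (Q : ℝ) * (Real.log M + ε) ≤ k * Real.log 2 + P * Real.log (3 / 2) →
      AtLeast k P Q (M.factorial ^ 2 - 1) (1 / (2 * (M : ℝ) ^ Q)) := by
  obtain ⟨N, h0⟩ := Pool.Agent.U553.DW.window_unif hM hε
  exact ⟨N, fun P Q k h1 h2 h3 h4 h5 c d hc hd => h0 P Q k h1 h2 h3 h4 h5 c (fun p hp => lt_of_le (hc p hp)) d hd⟩

theorem part3 : ∃ N : ℕ, ∀ P Q k : ℕ, N ≤ P → P ≤ Q → 4 * Q ≤ 5 * P → 9 * Q ≤ 8 * k → NoRelation k P Q 35 := by
  have e1 : 5 * Real.log 3 < 4 * Real.log 4 := by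
    have h1 : Real.log ((3 : ℝ) ^ 5) < Real.log ((4 : ℝ) ^ 4) := Real.log_lt_log (by norm_num) (by norm_num)
    rw [Real.log_pow, Real.log_pow] at h1
    exact_mod_cast h1
  have e2 : 8 * Real.log 3 < 13 * Real.log 2 := by
    have h1 : Real.log ((3 : ℝ) ^ 8) < Real.log ((2 : ℝ) ^ 13) := Real.log_lt_log (by norm_num) (by norm_num)
    rw [Real.log_pow, Real.log_pow] at h1
    exact_mod_cast h1
  have e3 : Real.log (3 / 2) = Real.log 3 - Real.log 2 := Real.log_div (by norm_num) (by norm_num)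
  set ε : ℝ := min ((4 * Real.log 4 - 5 * Real.log 3) / 5) ((13 * Real.log 2 - 8 * Real.log 3) / 40) with hε
  have hε0 : 0 < ε := lt_min (by linarith) (by linarith)
  obtain ⟨N, h0⟩ := part2 3 (by norm_num) ε hε0
  refine ⟨max N 1, fun P Q k hP hPQ h1 h2 => ?_⟩
  have hQ1 : 1 ≤ Q := ((le_max_right _ _).trans hP).trans hPQ
  have h1r : (4 : ℝ) * Q ≤ 5 * P := by exact_mod_cast h1
  have h2r : (9 : ℝ) * Q ≤ 8 * k := by exact_mod_cast h2
  have hQ0 : (0 : ℝ) ≤ Q := by positivity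
  have h3 : AtLeast k P Q (Nat.factorial 3 ^ 2 - 1) (1 / (2 * ((3 : ℕ) : ℝ) ^ Q)) := by
    refine h0 P Q k ((le_max_left _ _).trans hP) hPQ (by omega) ?_ ?_
    · have h4 : ε ≤ (4 * Real.log 4 - 5 * Real.log 3) / 5 := min_le_left _ _
      have h5 : ((3 : ℕ) : ℝ) + 1 = 4 := by norm_num
      have h6 : ((3 : ℕ) : ℝ) = 3 := by norm_num
      rw [h5, h6]
      have h7 : Real.log 3 + ε ≤ 4 / 5 * Real.log 4 := by linarith
      have h8 : 0 < Real.log 4 := Real.log_pos (by norm_num)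
      calc (Q : ℝ) * (Real.log 3 + ε) ≤ Q * (4 / 5 * Real.log 4) := by gcongr
        _ = (4 / 5 * Q) * Real.log 4 := by ring
        _ ≤ P * Real.log 4 := by gcongr; linarith
    · have h4 : ε ≤ (13 * Real.log 2 - 8 * Real.log 3) / 40 := min_le_right _ _
      have h6 : ((3 : ℕ) : ℝ) = 3 := by norm_num
      rw [h6]
      have h8 : 0 < Real.log 2 := Real.log_pos (by norm_num)
      have h9 : 0 < Real.log (3 / 2) := Real.log_pos (by norm_num)
      have h7 : Real.log 3 + ε ≤ 9 / 8 * Real.log 2 + 4 / 5 * Real.log (3 / 2) := by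
        rw [e3]
        linarith
      calc (Q : ℝ) * (Real.log 3 + ε) ≤ Q * (9 / 8 * Real.log 2 + 4 / 5 * Real.log (3 / 2)) := by gcongr
        _ = (9 / 8 * Q) * Real.log 2 + (4 / 5 * Q) * Real.log (3 / 2) := by ring
        _ ≤ k * Real.log 2 + P * Real.log (3 / 2) := by
            gcongr
            · linarith
            · linarith
  exact noRelation (by positivity) h3

/-- **Theorem.** Integer relations between `ζ(k)` and the double zeta values `ζ(p, k - p)` with odd `p ≥ 3` (see `AtLeast` and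
`NoRelation`: the bound `H` concerns the coefficients of the double zeta values only).
(1) For all `k ≥ 4` there is no relation with coefficients of absolute value at most three, except the trivial one. For all
`p ≥ 3` and `r ≥ 1`: `4 ζ(p + 2, r) < ζ(p, r + 2)`.
(2) Explicit windows `P ≤ p ≤ Q`: for `M ≥ 2` and `H < (M!)²`.
(3) For `M ≥ 2` and `ε > 0` there is `N` such that all windows with `P ≥ N`, `Q (log M + ε) ≤ P log (M + 1)` and
`Q (log M + ε) ≤ k log 2 + P log (3 / 2)` contain no relation with coefficients of absolute value less than `(M!)²`, with a lower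
bound for all combinations.
(4) There is `N` such that all windows with `N ≤ P ≤ Q ≤ 5 P / 4` and `Q ≤ 8 k / 9` contain no relation with
coefficients of absolute value at most `35`, except the trivial one.
(5) For every `H` there are `0 < a < b < 1` such that for all large `k` there is no relation with coefficients of absolute value
at most `H` between the double zeta values with `a k ≤ p ≤ b k` and `ζ(k)`, except the trivial one. -/
theorem result :
    (∀ k : ℕ, 4 ≤ k → NoRelation k 3 (k - 1) 3) ∧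
    (∀ p r : ℕ, 3 ≤ p → 1 ≤ r → 4 * doubleZeta (p + 2) r < doubleZeta p (r + 2)) ∧
    (∀ M H P Q k : ℕ, 2 ≤ M → H < M.factorial ^ 2 → 3 ≤ P → P ≤ Q → Q < k →
      6 * (M + 3) * H * M ^ Q ≤ (M + 1) ^ P → 168 * H * M ^ Q * 2 ^ P ≤ 2 ^ k * 3 ^ P →
      AtLeast k P Q H (1 / (2 * (M : ℝ) ^ Q))) ∧
    (∀ M : ℕ, 2 ≤ M → ∀ ε : ℝ, 0 < ε → ∃ N : ℕ, ∀ P Q k : ℕ, N ≤ P → P ≤ Q → Q < k →
      (Q : ℝ) * (Real.log M + ε) ≤ P * Real.log (M + 1) →
      (Q : ℝ) * (Real.log M + ε) ≤ k * Real.log 2 + P * Real.log (3 / 2) →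
      AtLeast k P Q (M.factorial ^ 2 - 1) (1 / (2 * (M : ℝ) ^ Q))) ∧
    (∃ N : ℕ, ∀ P Q k : ℕ, N ≤ P → P ≤ Q → 4 * Q ≤ 5 * P → 9 * Q ≤ 8 * k → NoRelation k P Q 35) ∧
    (∀ H : ℕ, ∃ a b : ℝ, 0 < a ∧ a < b ∧ b < 1 ∧ ∃ k₀ : ℕ, ∀ k : ℕ, k₀ ≤ k → ∀ P Q : ℕ,
      a * k ≤ P → P ≤ Q → (Q : ℝ) ≤ b * k → NoRelation k P Q H) := by
  refine ⟨fun k hk c d hc hd => Pool.Agent.U553.DW.height hk c hc d hd,
    fun p r hp hr => Pool.Agent.U553.DW.dz_ineq hp hr,
    fun M H P Q k hM hH h3 h01 h1k hA hB c d hc hd => Pool.Agent.U553.DW.window hM hH h3 h01 h1k hA hB c hc d hd,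
    part2, part3, fun H => ?_⟩
  obtain ⟨a, b, ha, hab, hb, k0, h0⟩ := Pool.Agent.U553.DW.window_every H
  exact ⟨a, b, ha, hab, hb, k0, fun k hk P Q h1 h2 h3 c d hc hd => h0 k hk P Q h1 h2 h3 c hc d hd⟩

end Pool.Agent.Results.MP_9206b6_nt.HeightsOfRelations
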