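import Pool.Agent.U553.DL.Cor
import Pool.Agent.U553.DL.Dbl
import Pool.Agent.U553.DL.Glob

/-!
# Polynomial relations between double zeta values of one weight, over arbitrary constants

Let `k` be a weight. We consider `ζ(k)` and the double zeta values `ζ(p, k - p)` with first argument `p ≥ N` in a weight
`k ≤ κ N`, for instance with `p` and `k - p` odd. The starting result `AllWeights` of this page says that a bounded number of
them satisfies no linear relation with coefficients of absolute value at most `C ^ N`, for large `N`. Here the relations are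
polynomial, and arbitrary constants are allowed: fixed algebraic numbers `α_i` and arbitrary complex numbers `x_1, ..., x_t`.
Relations have degree at most `D` and integer coefficients of absolute value at most `C ^ N`. Let `N` be large, uniformly in the
`x_j` and in `k`.

(1) There is a set `T` of at most `t` exceptional first arguments in `[N, k]` (in all) such that for every other `p` the
number `ζ(p, k - p)` is not algebraic over the constants and at most `m` of the values with smaller first argument: each
relation between these numbers and `ζ(p, k - p)` is trivial in `ζ(p, k - p)`, it holds for all complex numbers in place of it. In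
particular any `m + 1` of the values with first argument outside `T` satisfy only trivial relations over the
constants. Any other order of the first arguments is possible instead of the natural one.

(2) For `t = 0`: no nonzero polynomial of degree at most `D` and with integer coefficients of absolute value at most `C ^ N`
vanishes at `m + 1` of the numbers (no constants, no exceptions).

(3) All the bounds may grow with `N`.

In all parts `ζ(k)` itself is one of the numbers. The proof: in the algebra of all indices with the stuffle product the index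
`(k)` and all the indices `(p, k - p)`, `1 ≤ p < k`, are algebraically independent (commutators of characters give the
antisymmetric combinations of `(p, k - p)` and `(k - p, p)`, power sums the symmetric ones); so, by the linear independence
of multiple zeta values with large first arguments (starting library, subspace theorem), the germs of the zeta values are
algebraically independent over the ring of germs of integer sequences of exponential growth, and the transcendence
degree over the constants gives (1).
-/

set_option autoImplicit false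

namespace Pool.Agent.Results.MP_9206b6_nt.RelationsOverConstants

open Pool.Agent.U553.DL

/-- the double zeta value `ζ(p, q)`, the sum of `m ^ (-p) n ^ (-q)` over `m > n ≥ 1` -/
noncomputable def doubleZeta (p q : ℕ) : ℝ :=
  ∑' m : ℕ, (∑ n ∈ Finset.Ico 1 (m + 1), 1 / (n : ℝ) ^ q) / ((m + 1 : ℕ) : ℝ) ^ p

/-- `ζ(p, k - p)` for `p ≠ k`, and `ζ(k)` for `p = k` -/
noncomputable def value (k p : ℕ) : ℝ :=
  if p = k then ∑' m : ℕ, 1 / ((m + 1 : ℕ) : ℝ) ^ k else doubleZeta p (k - p)

/-- Every polynomial relation, of degree at most `D` and with integer coefficients of absolute value at most `H`, between the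
numbers `u_i` and the numbers `value k p`, `p ∈ S`, is trivial: it remains true if the latter are replaced by arbitrary
complex numbers. -/
def Independent {σ : Type} (k : ℕ) (u : σ → ℂ) (S : Finset ℕ) (D : ℕ) (H : ℝ) : Prop :=
  ∀ P : MvPolynomial (σ ⊕ S) ℤ, P.totalDegree ≤ D → (∀ m, |((P.coeff m : ℤ) : ℝ)| ≤ H) →
    MvPolynomial.aeval (Sum.elim u fun p : S => ((value k p : ℝ) : ℂ)) P = 0 →
    ∀ y : S → ℂ, MvPolynomial.aeval (Sum.elim u y) P = 0

/-- There is a polynomial relation, of degree at most `D` and with integer coefficients of absolute value at most `H`, between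
`value k p`, the numbers `u_i` and the numbers `value k q`, `q ∈ Λ`, which is not trivial in `value k p`: it fails for some
complex number `y` in place of `value k p`. -/
def Algebraic {σ : Type} (k : ℕ) (u : σ → ℂ) (Λ : Finset ℕ) (p : ℕ) (D : ℕ) (H : ℝ) : Prop :=
  ∃ P : MvPolynomial (Option (σ ⊕ Λ)) ℤ, P.totalDegree ≤ D ∧ (∀ m, |((P.coeff m : ℤ) : ℝ)| ≤ H) ∧
    MvPolynomial.aeval (fun o => o.elim ((value k p : ℝ) : ℂ) (Sum.elim u fun q : Λ => ((value k q : ℝ) : ℂ))) P = 0 ∧
    ∃ y : ℂ, MvPolynomial.aeval (fun o => o.elim y (Sum.elim u fun q : Λ => ((value k q : ℝ) : ℂ))) P ≠ 0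

lemma value_eq (k p : ℕ) : value k p = Pool.Agent.Y760.ZG.mz (if p = k then [k] else [p, k - p]) := by
  unfold value
  split_ifs with h
  · rw [Pool.Agent.Y760.ZG.mz]
    exact tsum_congr fun m => by rw [Pool.Agent.Y760.ZG.hr_nil]
  · rw [doubleZeta, Pool.Agent.Y760.ZG.mz]
    refine tsum_congr fun m => ?_
    rw [Pool.Agent.Y760.ZG.hr_cons]
    simp only [Pool.Agent.Y760.ZG.hr_nil]

lemma aeval_ofReal {σ : Type} (g : σ → ℝ) (P : MvPolynomial σ ℤ) :
    MvPolynomial.aeval (fun i => ((g i : ℝ) : ℂ)) P = ((MvPolynomial.aeval g P : ℝ) : ℂ) := by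
  induction P using MvPolynomial.induction_on with
  | C a => simp
  | add p q hp hq => simp only [map_add, hp, hq, Complex.ofReal_add]
  | mul_X p i hp => simp only [map_mul, hp, MvPolynomial.aeval_X, Complex.ofReal_mul]

/-- the main theorem -/
theorem main (m κ a t D : ℕ) (C : ℝ) (α : Fin a → ℂ) (hα : ∀ i, IsAlgebraic ℤ (α i)) :
    ∃ N₀ : ℕ, ∀ N : ℕ, N₀ ≤ N → ∀ k : ℕ, k ≤ κ * N → ∀ r : ℕ → ℕ, Function.Injective r → ∀ x : Fin t → ℂ,
      ∃ T : Finset ℕ, T ⊆ Finset.Icc N k ∧ T.card ≤ t ∧
      (∀ p ∈ Finset.Icc N k, p ∉ T → ∀ Λ : Finset ℕ, Λ ⊆ Finset.Icc N k → Λ.card ≤ m → (∀ q ∈ Λ, r q < r p) →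
        ¬ Algebraic k (Sum.elim α x) Λ p D (C ^ N)) ∧
      ∀ S : Finset ℕ, S ⊆ Finset.Icc N k → S.card ≤ m + 1 → Disjoint S T →
        Independent k (Sum.elim α x) S D (C ^ N) := by
  classical
  obtain ⟨N₀, h0⟩ := globW m 2 κ a t D C α hα
  refine ⟨N₀ + 2, fun N hN k hk r hr x => ?_⟩
  have hkr : (k : ℝ) ≤ (κ : ℝ) * N := by exact_mod_cast hk
  have key := @h0 N (by omega) ℕ (LinearOrder.lift' r hr) (fun p => if p = k then [k] else [p, k - p]) (Finset.Icc N k)
    (fun p hp => by
      obtain ⟨h3, h4⟩ := Finset.mem_Icc.1 hp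
      have h4r : ((p : ℕ) : ℝ) ≤ (κ : ℝ) * N := le_trans (by exact_mod_cast h4) hkr
      split_ifs with h2
      · refine ⟨by simp, fun m hm => ?_, fun m hm => ?_⟩
        · rw [List.mem_singleton] at hm
          subst hm
          exact ⟨by omega, hkr⟩
        · rw [List.head?_cons, Option.mem_some_iff] at hm
          subst hm
          omega
      · refine ⟨by simp, fun m hm => ?_, fun m hm => ?_⟩
        · simp only [List.mem_cons, List.not_mem_nil, or_false] at hm
          rcases hm with rfl | rfl
          · exact ⟨by omega, h4r⟩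
          · refine ⟨by omega, le_trans ?_ hkr⟩
            exact_mod_cast Nat.sub_le _ _
        · rw [List.head?_cons, Option.mem_some_iff] at hm
          subst hm
          exact h3)
    (fun p hp => by
      obtain ⟨h3, h4⟩ := Finset.mem_Icc.1 hp
      split_ifs with h2
      · exact ⟨by omega, fun t ht => absurd ht List.not_mem_nil⟩
      · refine ⟨by omega, fun t ht => ?_⟩
        rw [List.mem_singleton] at ht
        omega)
    (fun n s hs hmem => by
      have hWinj : Function.Injective fun i => if s i = k then [k] else [s i, k - s i] := by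
        intro i j hij
        simp only at hij
        refine hs ?_
        split_ifs at hij with h1 h2 h2
        · rw [h1, h2]
        · simp at hij
        · simp at hij
        · exact (List.cons.inj hij).1
      by_cases hk1 : 1 ≤ k
      · refine FI_dbl hk1 hWinj fun i => ?_
        obtain ⟨h3, h4⟩ := Finset.mem_Icc.1 (hmem i)
        by_cases h2 : s i = k
        · left
          rw [if_pos h2]
        · right
          refine ⟨s i, by omega, by omega, ?_⟩
          rw [if_neg h2]
      · have hempty : IsEmpty (Fin n) := ⟨fun i => by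
          have := Finset.mem_Icc.1 (hmem i)
          omega⟩
        intro P hP
        by_contra hne
        obtain ⟨c, hc⟩ := Pool.Agent.X90.DC.exists_nonzero P hne
        refine hc ?_
        have h2 := hP ℂ (Pool.Agent.X90.DC.Zt []) fun u v _ _ => Pool.Agent.X90.DC.Zt_mul [] u v
        rw [← h2]
        congr 2
        funext i
        exact hempty.elim i) x
  have hf : (fun p : ℕ => ((Pool.Agent.Y760.ZG.mz (if p = k then [k] else [p, k - p]) : ℝ) : ℂ)) =
      fun p => ((value k p : ℝ) : ℂ) := by
    funext p
    rw [value_eq]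
  rw [hf] at key
  obtain ⟨T, h1, h2, h3, h4⟩ := key
  exact ⟨T, h1, h2, fun p hp hpT Λ hΛ hΛc hr' hA => h3 p hp hpT Λ hΛ hΛc hr' hA, fun S hS hSc hST => h4 S hS hSc hST⟩

/-- **Theorem.** The numbers of weight `k` are `value k p` for the first arguments `p` in `[N, k]`: the double zeta values
`ζ(p, k - p)`, `p < k`, and `ζ(k)`, for `p = k`. Constants are `a` fixed algebraic numbers `α_i` and `t` arbitrary complex
numbers `x_j`. All statements are for large `N` and uniform in the weights `k ≤ κ N` and in the `x_j`; the first arguments are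
ordered by any injective function `r`.
(1) There are at most `t` exceptional first arguments. If `p` is not exceptional, then `value k p` is not algebraic over
the constants and at most `m` numbers `value k q` with `r q < r p`. The numbers `value k p`, `p ∈ S`, are independent
over the constants for all sets `S` of at most `m + 1` first arguments which are not exceptional.
(2) No nonzero integer polynomial vanishes at at most `m + 1` numbers of one weight.
(3) All the bounds can be replaced by a function of `N` which tends to infinity. -/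
theorem result :
    (∀ (m κ a t D : ℕ) (C : ℝ) (α : Fin a → ℂ), (∀ i, IsAlgebraic ℚ (α i)) → ∃ N₀ : ℕ, ∀ N : ℕ, N₀ ≤ N →
      ∀ k : ℕ, k ≤ κ * N → ∀ r : ℕ → ℕ, Function.Injective r → ∀ x : Fin t → ℂ,
      ∃ T : Finset ℕ, T ⊆ Finset.Icc N k ∧ T.card ≤ t ∧
      (∀ p ∈ Finset.Icc N k, p ∉ T → ∀ Λ : Finset ℕ, Λ ⊆ Finset.Icc N k → Λ.card ≤ m → (∀ q ∈ Λ, r q < r p) →
        ¬ Algebraic k (Sum.elim α x) Λ p D (C ^ N)) ∧
      ∀ S : Finset ℕ, S ⊆ Finset.Icc N k → S.card ≤ m + 1 → Disjoint S T →
        Independent k (Sum.elim α x) S D (C ^ N)) ∧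
    (∀ (m κ D : ℕ) (C : ℝ), ∃ N₀ : ℕ, ∀ N : ℕ, N₀ ≤ N → ∀ k : ℕ, k ≤ κ * N → ∀ S : Finset ℕ, S ⊆ Finset.Icc N k →
      S.card ≤ m + 1 → ∀ P : MvPolynomial S ℤ, P ≠ 0 → P.totalDegree ≤ D →
        (∀ m, |((P.coeff m : ℤ) : ℝ)| ≤ C ^ N) → MvPolynomial.aeval (fun p : S => value k p) P ≠ 0) ∧
    (∃ ω : ℕ → ℕ, Filter.Tendsto ω Filter.atTop Filter.atTop ∧ ∀ N t k : ℕ, t ≤ ω N → k ≤ ω N * N →
      ∀ x : Fin t → ℂ, ∃ T : Finset ℕ, T ⊆ Finset.Icc N k ∧ T.card ≤ t ∧
      ∀ S : Finset ℕ, S ⊆ Finset.Icc N k → S.card ≤ ω N → Disjoint S T →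
        Independent k x S (ω N) ((ω N : ℝ) ^ N)) := by
  classical
  have hZ : ∀ z : ℂ, IsAlgebraic ℚ z → IsAlgebraic ℤ z := fun z hz => by
    exact (IsFractionRing.isAlgebraic_iff ℤ ℚ ℂ).2 hz
  refine ⟨fun m κ a t D C α hα => main m κ a t D C α fun i => hZ _ (hα i), ?_, ?_⟩
  · intro m κ D C
    obtain ⟨N₀, h0⟩ := main m κ 0 0 D C (fun i => i.elim0) (fun i => i.elim0)
    refine ⟨N₀, fun N hN k hk S hSN hS P hP hPD hPC hP0 => ?_⟩
    obtain ⟨T, -, h2, -, h4⟩ := h0 N hN k hk id Function.injective_id (fun i => i.elim0)
    have h5 : T = ∅ := Finset.card_eq_zero.1 (by omega)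
    subst h5
    obtain ⟨c, hc⟩ := Pool.Agent.X90.DC.exists_nonzero P hP
    refine hc ?_
    have h6 := h4 S hSN hS (Finset.disjoint_empty_right _)
      (MvPolynomial.rename Sum.inr P) ((MvPolynomial.totalDegree_rename_le _ _).trans hPD)
      (height_rename _ Sum.inr_injective hPC) (by
        rw [MvPolynomial.aeval_rename]
        rw [Sum.elim_comp_inr, aeval_ofReal, hP0, Complex.ofReal_zero]) c
    rw [MvPolynomial.aeval_rename] at h6
    exact h6
  · set p : ℕ → ℕ → Prop := fun m N => ∀ t k : ℕ, t ≤ m → k ≤ m * N → ∀ x : Fin t → ℂ,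
      ∃ T : Finset ℕ, T ⊆ Finset.Icc N k ∧ T.card ≤ t ∧
      ∀ S : Finset ℕ, S ⊆ Finset.Icc N k → S.card ≤ m → Disjoint S T →
        Independent k x S m ((m : ℝ) ^ N) with hp
    have hp0 : ∀ N, p 0 N := by
      intro N t k _ _ x
      refine ⟨∅, Finset.empty_subset _, by simp, fun S _ hS _ => ?_⟩
      have hS0 : S = ∅ := Finset.card_eq_zero.1 (by omega)
      subst hS0
      exact IndX_empty x (fun p => ((value k p : ℝ) : ℂ)) _ _
    have hpm : ∀ m, ∃ N₀, ∀ N, N₀ ≤ N → p m N := by
      intro m
      choose N₀ h0 using fun t => main m m 0 t m (m : ℝ) (fun i => i.elim0) (fun i => i.elim0)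
      refine ⟨∑ t ∈ Finset.range (m + 1), N₀ t, fun N hN t k ht hk x => ?_⟩
      have h2 : N₀ t ≤ N := (Finset.single_le_sum (f := N₀) (fun _ _ => Nat.zero_le _)
        (Finset.mem_range.2 (by omega))).trans hN
      obtain ⟨T, h3, h4, -, h5⟩ := h0 t N h2 k hk id Function.injective_id x
      refine ⟨T, h3, h4, fun S hSN hS hST P hPD hPC hP0 y => ?_⟩
      have h6 := h5 S hSN (by omega) hST (MvPolynomial.rename (Sum.map Sum.inr id) P)
        ((MvPolynomial.totalDegree_rename_le _ _).trans hPD)
        (height_rename _ (Sum.inr_injective.sumMap Function.injective_id) hPC) (by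
          rw [MvPolynomial.aeval_rename, ← hP0]
          congr 2
          funext i
          rcases i with i | i <;> rfl) y
      rw [MvPolynomial.aeval_rename] at h6
      rw [← h6]
      congr 2
      funext i
      rcases i with i | i <;> rfl
    refine ⟨fun N => Nat.findGreatest (fun m => p m N) N, ?_, fun N t k ht hk x => ?_⟩
    · refine Filter.tendsto_atTop.2 fun m => ?_
      obtain ⟨N₀, h2⟩ := hpm m
      refine Filter.eventually_atTop.2 ⟨max m N₀, fun N hN => ?_⟩
      exact Nat.le_findGreatest (le_of_max_le_left hN) (h2 N (le_of_max_le_right hN))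
    · have h2 : p (Nat.findGreatest (fun m => p m N) N) N :=
        Nat.findGreatest_spec (P := fun m => p m N) (Nat.zero_le N) (hp0 N)
      exact h2 t k ht hk x

end Pool.Agent.Results.MP_9206b6_nt.RelationsOverConstants
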